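import Pool.Agent.H73.LPC.Stmts

/-!
Board `lpc`, row LOC (helper23): level sets of maps of rank at most one have no isolated points in
the direction of `w`.
-/

set_option autoImplicit false

open Set Filter Topology MeasureTheory Metric

namespace Pool.LPC

open Pool.PHS

theorem loc_coord {n : ℕ} (G : ℂ × ℂ → Cn n) (p : ℂ × ℂ) (hG : DifferentiableAt ℂ G p) (l : Fin n)
    (y : ℂ) : HasFDerivAt (fun q => G q l - y)
      ((ContinuousLinearMap.proj (R := ℂ) (φ := fun _ : Fin n => ℂ) l).comp (fderiv ℂ G p)) p := by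
  have h := (ContinuousLinearMap.proj (R := ℂ) (φ := fun _ : Fin n => ℂ) l).hasFDerivAt.comp p
    hG.hasFDerivAt
  exact h.sub_const y

theorem loc_slice (U : ℂ × ℂ → ℂ) (z w : ℂ) (hU : DifferentiableAt ℂ U (z, w)) :
    HasDerivAt (fun z => U (z, w)) (pz U (z, w)) z := by
  have h1 : HasDerivAt (fun z : ℂ => (z, w)) ((1 : ℂ), (0 : ℂ)) z :=
    (hasDerivAt_id z).prodMk (hasDerivAt_const z w)
  exact hU.hasFDerivAt.comp_hasDerivAt z h1

theorem LOC_thm (hZ : ZERStmt) (hC : CSTStmt) (hN : NWTStmt) : LOCStmt := by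
  intro n O G z₀ w₀ hO hmem hG hRk hne
  classical
  obtain ⟨y, hy⟩ : ∃ y, y = G (z₀, w₀) := ⟨_, rfl⟩
  rw [← hy] at hne ⊢
  -- a coordinate
  have hi : ∃ i, ¬ ∀ᶠ z in 𝓝 z₀, G (z, w₀) i = y i := by
    by_contra hcon
    push Not at hcon
    apply hne
    have h1 : ∀ᶠ z in 𝓝 z₀, ∀ i, G (z, w₀) i = y i := eventually_all.2 hcon
    filter_upwards [h1] with z hz
    exact funext hz
  obtain ⟨i, hi⟩ := hi
  obtain ⟨R, hR0, hRO⟩ : ∃ R > 0, ball z₀ R ×ˢ ball w₀ R ⊆ O := by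
    obtain ⟨R, hR, h⟩ := Metric.isOpen_iff.1 hO _ hmem
    refine ⟨R, hR, ?_⟩
    rw [ball_prod_same]
    exact h
  have hGd : ∀ p ∈ O, DifferentiableAt ℂ G p := fun p hp =>
    (hG p hp).differentiableAt (hO.mem_nhds hp)
  obtain ⟨U, hU⟩ : ∃ U : Fin n → ℂ × ℂ → ℂ, ∀ l, U l = fun p => G p l - y l := ⟨_, fun _ => rfl⟩
  have hUd : ∀ l, ∀ p ∈ O, HasFDerivAt (U l)
      ((ContinuousLinearMap.proj (R := ℂ) (φ := fun _ : Fin n => ℂ) l).comp (fderiv ℂ G p)) p := by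
    intro l p hp
    rw [hU]
    exact loc_coord G p (hGd p hp) l (y l)
  have hpz : ∀ l, ∀ p ∈ O, pz (U l) p = pz G p l := by
    intro l p hp
    unfold pz
    rw [(hUd l p hp).fderiv]
    rfl
  have hpw : ∀ l, ∀ p ∈ O, pw (U l) p = pw G p l := by
    intro l p hp
    unfold pw
    rw [(hUd l p hp).fderiv]
    rfl
  have hUdiff : ∀ l, DifferentiableOn ℂ (U l) O := fun l p hp =>
    (hUd l p hp).differentiableAt.differentiableWithinAt
  have hsl : ∀ l z w, (z, w) ∈ O → HasDerivAt (fun z => U l (z, w)) (pz (U l) (z, w)) z :=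
    fun l z w h => loc_slice (U l) z w (hUd l _ h).differentiableAt
  have hsd : ∀ l, ∀ w ∈ ball w₀ R, DifferentiableOn ℂ (fun z => U l (z, w)) (ball z₀ R) :=
    fun l w hw z hz => (hsl l z w (hRO ⟨hz, hw⟩)).differentiableAt.differentiableWithinAt
  have hana : AnalyticAt ℂ (fun z => U i (z, w₀)) z₀ :=
    (hsd i w₀ (mem_ball_self hR0)).analyticAt (ball_mem_nhds z₀ hR0)
  rcases hana.eventually_eq_zero_or_eventually_ne_zero with h | h
  · refine absurd (h.mono fun z hz => ?_) hi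
    rw [hU] at hz
    exact sub_eq_zero.1 hz
  rw [eventually_nhdsWithin_iff, Metric.eventually_nhds_iff] at h
  obtain ⟨r₁, hr₁, h⟩ := h
  obtain ⟨r, hr0, hrr₁, hrR⟩ : ∃ r, 0 < r ∧ r < r₁ ∧ r < R := by
    have h1 : 0 < min r₁ R := lt_min hr₁ hR0
    have h2 : min r₁ R ≤ r₁ := min_le_left _ _
    have h3 : min r₁ R ≤ R := min_le_right _ _
    exact ⟨min r₁ R / 2, by linarith, by linarith, by linarith⟩
  have hz0 : ∀ z, z ≠ z₀ → dist z z₀ ≤ r → U i (z, w₀) ≠ 0 := fun z hz hd =>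
    h (lt_of_le_of_lt hd hrr₁) hz
  -- the tube
  have hopen : IsOpen (O ∩ (U i) ⁻¹' {0}ᶜ) :=
    (hUdiff i).continuousOn.isOpen_inter_preimage hO isOpen_compl_singleton
  obtain ⟨u, v, -, hv, hsu, hwv, huv⟩ := generalized_tube_lemma (isCompact_sphere z₀ r)
    (isCompact_singleton (x := w₀)) hopen (by
      rintro ⟨z, w⟩ ⟨hz, hw⟩
      rw [mem_singleton_iff] at hw
      simp only at hw hz
      subst hw
      rw [mem_sphere] at hz
      refine ⟨hRO ⟨?_, mem_ball_self hR0⟩, ?_⟩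
      · rw [mem_ball, hz]
        exact hrR
      · refine hz0 z ?_ hz.le
        rintro rfl
        rw [dist_self] at hz
        exact hr0.ne hz)
  obtain ⟨R₂, hR₂, hv₂⟩ := Metric.isOpen_iff.1 hv w₀ (hwv rfl)
  obtain ⟨R', hR'0, hR'2, hR'R⟩ : ∃ R', 0 < R' ∧ R' ≤ R₂ ∧ R' ≤ R :=
    ⟨min R₂ R, lt_min hR₂ hR0, min_le_left _ _, min_le_right _ _⟩
  have hsub : ball z₀ R ×ˢ ball w₀ R' ⊆ O := fun p hp =>
    hRO ⟨hp.1, ball_subset_ball hR'R hp.2⟩
  have hne' : ∀ z w, ‖z - z₀‖ = r → w ∈ ball w₀ R' → U i (z, w) ≠ 0 := by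
    intro z w hz hw
    have h1 : (z, w) ∈ u ×ˢ v := ⟨hsu (by rw [mem_sphere, dist_eq_norm]; exact hz),
      hv₂ (ball_subset_ball hR'2 hw)⟩
    exact (huv h1).2
  have hzer : ∀ w ∈ ball w₀ R', ∃ s : Multiset ℂ, (∀ a ∈ s, a ∈ ball z₀ r ∧ U i (a, w) = 0) ∧
      (∀ a ∈ ball z₀ r, U i (a, w) = 0 → a ∈ s) ∧
      ∀ v : ℂ → ℂ, DifferentiableOn ℂ v (ball z₀ R) →
        (∮ z in C(z₀, r), v z * deriv (fun z => U i (z, w)) z / U i (z, w)) =
          2 * Real.pi * Complex.I * (s.map v).sum := fun w hw =>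
    hZ z₀ r R (fun z => U i (z, w)) hr0 hrR (hsd i w (ball_subset_ball hR'R hw))
      (fun z hz => hne' z w hz hw)
  have hcst : ∀ l (k : ℕ), ∀ w ∈ ball w₀ R',
      (∮ z in C(z₀, r), U l (z, w) ^ k * pz (U i) (z, w) / U i (z, w)) =
        ∮ z in C(z₀, r), U l (z, w₀) ^ k * pz (U i) (z, w₀) / U i (z, w₀) := by
    intro l k w hw
    refine hC z₀ w₀ r R R' (U i) (U l) k hr0 hrR hR'0 ((hUdiff i).mono hsub)
      ((hUdiff l).mono hsub) hne' (fun p hp => ?_) w hw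
    rw [hpz i p (hsub hp), hpz l p (hsub hp), hpw i p (hsub hp), hpw l p (hsub hp)]
    exact hRk p (hsub hp) i l
  have hint : ∀ l (k : ℕ), ∀ w ∈ ball w₀ R',
      (∮ z in C(z₀, r), U l (z, w) ^ k * deriv (fun z => U i (z, w)) z / U i (z, w)) =
        ∮ z in C(z₀, r), U l (z, w) ^ k * pz (U i) (z, w) / U i (z, w) := by
    intro l k w hw
    refine circleIntegral.integral_congr hr0.le fun z hz => ?_
    have hzb : z ∈ ball z₀ R := by
      rw [mem_sphere] at hz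
      rw [mem_ball, hz]
      exact hrR
    change U l (z, w) ^ k * deriv (fun z => U i (z, w)) z / U i (z, w) = _
    rw [(hsl i z w (hsub ⟨hzb, hw⟩)).deriv]
  have hw₀ : w₀ ∈ ball w₀ R' := mem_ball_self hR'0
  obtain ⟨s₀, hs₀1, hs₀2, hs₀3⟩ := hzer w₀ hw₀
  have h2pi : (2 * (Real.pi : ℂ) * Complex.I) ≠ 0 := Complex.two_pi_I_ne_zero
  have hpow : ∀ l (k : ℕ), ∀ w ∈ ball w₀ R', DifferentiableOn ℂ (fun z => U l (z, w) ^ k)
      (ball z₀ R) := fun l k w hw => (hsd l w (ball_subset_ball hR'R hw)).pow k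
  have hs₀z : ∀ a ∈ s₀, a = z₀ := by
    intro a ha
    by_contra hcon
    obtain ⟨h1, h2⟩ := hs₀1 a ha
    exact hz0 a hcon (mem_ball.1 h1).le h2
  have hUz : ∀ l, U l (z₀, w₀) = 0 := by
    intro l
    rw [hU, hy]
    exact sub_self _
  have hz₀s : z₀ ∈ s₀ := hs₀2 z₀ (mem_ball_self hr0) (hUz i)
  filter_upwards [ball_mem_nhds w₀ hR'0] with w hw
  obtain ⟨s, hs1, -, hs3⟩ := hzer w hw
  have hkey : ∀ l (k : ℕ), (s.map fun a => U l (a, w) ^ k).sum =
      (s₀.map fun a => U l (a, w₀) ^ k).sum := by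
    intro l k
    have e1 := hs3 (fun z => U l (z, w) ^ k) (hpow l k w hw)
    have e2 := hs₀3 (fun z => U l (z, w₀) ^ k) (hpow l k w₀ hw₀)
    rw [hint l k w hw, hcst l k w hw] at e1
    rw [hint l k w₀ hw₀] at e2
    exact mul_left_cancel₀ h2pi (e1.symm.trans e2)
  have hcard : s.card = s₀.card := by
    have h1 := hkey i 0
    simp only [pow_zero, Multiset.map_const', Multiset.sum_replicate, nsmul_eq_mul, mul_one] at h1
    exact_mod_cast h1
  have hpos : 0 < s.card := by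
    rw [hcard]
    exact Multiset.card_pos_iff_exists_mem.2 ⟨z₀, hz₀s⟩
  obtain ⟨a, ha⟩ := Multiset.card_pos_iff_exists_mem.1 hpos
  have haz : a ∈ ball z₀ R := ball_subset_ball hrR.le (hs1 a ha).1
  refine ⟨a, hsub ⟨haz, hw⟩, funext fun l => ?_⟩
  have h1 : ∀ b ∈ s.map fun a => U l (a, w), b = 0 := by
    refine hN _ fun k hk => ?_
    rw [Multiset.map_map]
    have h2 := hkey l k
    have h3 : (s₀.map fun a => U l (a, w₀) ^ k).sum = 0 := by
      refine Multiset.sum_eq_zero fun x hx => ?_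
      obtain ⟨b, hb, rfl⟩ := Multiset.mem_map.1 hx
      rw [hs₀z b hb, hUz, zero_pow (by omega)]
    rw [h3] at h2
    exact h2
  have h4 := h1 _ (Multiset.mem_map_of_mem _ ha)
  rw [hU] at h4
  exact sub_eq_zero.1 h4

end Pool.LPC
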